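import Pool.Agent.Y113.MT.Stm
import Pool.Agent.TH519.GL.U1

/-!
# MT-GEN: a derivation with prescribed values at a generic point
-/

set_option autoImplicit false

namespace Pool.Agent.Y872.MT

open Pool.Agent.Y113.MT MvPolynomial

section

variable {F : Type} [Field F] (K : Subfield F) {ι : Type} [Fintype ι] [DecidableEq ι]
  (g Y : ι → F)

/-- the value at `g` -/
noncomputable def Ph : MvPolynomial ι K →+* F := eval₂Hom (algebraMap K F) g

/-- the value at `g + ε Y` -/
noncomputable def Th : MvPolynomial ι K →+* DualNumber F :=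
  eval₂Hom ((TrivSqZeroExt.inlHom F F).comp (algebraMap K F))
    (fun x => TrivSqZeroExt.inl (g x) + TrivSqZeroExt.inr (Y x))

theorem Ph_C (a : K) : Ph K g (C a) = a := eval₂Hom_C _ _ _

theorem Ph_X (x : ι) : Ph K g (X x) = g x := eval₂Hom_X' _ _ _

theorem Th_C (a : K) : Th K g Y (C a) = TrivSqZeroExt.inl (a : F) := eval₂Hom_C _ _ _

theorem Th_X (x : ι) : Th K g Y (X x) = TrivSqZeroExt.inl (g x) + TrivSqZeroExt.inr (Y x) :=
  eval₂Hom_X' _ _ _

theorem Th_fst (P : MvPolynomial ι K) : (Th K g Y P).fst = Ph K g P := by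
  induction P using MvPolynomial.induction_on with
  | C a => rw [Th_C, Ph_C, TrivSqZeroExt.fst_inl]
  | add p q hp hq => rw [map_add, map_add, TrivSqZeroExt.fst_add, hp, hq]
  | mul_X p x hp =>
    rw [map_mul, map_mul, TrivSqZeroExt.fst_mul, hp, Th_X, TrivSqZeroExt.fst_add,
      TrivSqZeroExt.fst_inl, TrivSqZeroExt.fst_inr, add_zero, Ph_X]

theorem Th_snd (P : MvPolynomial ι K) :
    (Th K g Y P).snd = ∑ x : ι, Y x * Ph K g (pderiv x P) := by
  induction P using MvPolynomial.induction_on with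
  | C a =>
    rw [Th_C, TrivSqZeroExt.snd_inl]
    symm
    apply Finset.sum_eq_zero
    intro x _
    rw [pderiv_C, map_zero, mul_zero]
  | add p q hp hq =>
    rw [map_add, TrivSqZeroExt.snd_add, hp, hq, ← Finset.sum_add_distrib]
    refine Finset.sum_congr rfl fun x _ => ?_
    rw [map_add, map_add, mul_add]
  | mul_X p y hp =>
    have h1 : ∀ x : ι, Y x * Ph K g (pderiv x (p * X y)) =
        (if x = y then Ph K g p * Y x else 0) + g y * (Y x * Ph K g (pderiv x p)) := by
      intro x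
      rw [Derivation.leibniz, map_add, smul_eq_mul, smul_eq_mul, map_mul, map_mul, pderiv_X,
        Ph_X]
      by_cases h : x = y
      · subst h
        rw [if_pos rfl, Pi.single_eq_same, map_one]
        ring
      · rw [if_neg h, Pi.single_eq_of_ne (Ne.symm h), map_zero]
        ring
    rw [Finset.sum_congr rfl fun x _ => h1 x, Finset.sum_add_distrib, ← Finset.mul_sum,
      Finset.sum_ite_eq' Finset.univ y, if_pos (Finset.mem_univ _), ← hp,
      map_mul, TrivSqZeroExt.snd_mul, Th_fst, Th_X, TrivSqZeroExt.snd_add,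
      TrivSqZeroExt.snd_inl, TrivSqZeroExt.snd_inr, zero_add, TrivSqZeroExt.fst_add,
      TrivSqZeroExt.fst_inl, TrivSqZeroExt.fst_inr, add_zero, smul_eq_mul,
      MulOpposite.smul_eq_mul_unop, MulOpposite.unop_op, mul_comm (g y)]

end

theorem exD0 {F : Type} [Field F] [CharZero F] {A : Type} [CommRing A] (φ : A →+* F)
    (θ : A →+* DualNumber F) (h1 : ∀ a, (θ a).fst = φ a) (h2 : ∀ a, φ a = 0 → θ a = 0) :
    ∃ D : Derivation ℤ F F, ∀ a, D (φ a) = (θ a).snd := by
  have hker : ∀ a ∈ RingHom.ker φ, θ a = 0 := fun a ha => h2 a ((RingHom.mem_ker).1 ha)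
  have hθ : ∀ r : A ⧸ RingHom.ker φ,
      (Ideal.Quotient.lift (RingHom.ker φ) θ hker r).fst = RingHom.kerLift φ r := by
    intro r
    obtain ⟨a, rfl⟩ := Ideal.Quotient.mk_surjective r
    rw [Ideal.Quotient.lift_mk, RingHom.kerLift_mk, h1]
  obtain ⟨D, hD⟩ := Pool.Agent.TH519.GL.exists_der (RingHom.kerLift φ)
    (RingHom.kerLift_injective φ) (Ideal.Quotient.lift (RingHom.ker φ) θ hker) hθ
  refine ⟨D, fun a => ?_⟩
  have h3 := hD (Ideal.Quotient.mk (RingHom.ker φ) a)
  rw [Ideal.Quotient.lift_mk, RingHom.kerLift_mk] at h3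
  exact h3

/-- GEN -/
theorem gen : S_GEN := by
  intro F _ _ K n g Y hPY
  obtain ⟨D, hD⟩ := exD0 (Ph K (fun x : Fin n × Fin n => g x.1 x.2))
    (Th K (fun x : Fin n × Fin n => g x.1 x.2) (fun x => Y x.1 x.2)) (Th_fst K _ _) (by
      intro P hP
      refine TrivSqZeroExt.ext ?_ ?_
      · rw [Th_fst, hP, TrivSqZeroExt.fst_zero]
      · rw [Th_snd, TrivSqZeroExt.snd_zero]
        exact hPY P hP)
  refine ⟨D, fun c hc => ?_, fun i j => ?_⟩
  · have h1 := hD (C ⟨c, hc⟩)
    rw [Ph_C, Th_C, TrivSqZeroExt.snd_inl] at h1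
    exact h1
  · have h1 := hD (X (i, j))
    rw [Ph_X, Th_X, TrivSqZeroExt.snd_add, TrivSqZeroExt.snd_inl, TrivSqZeroExt.snd_inr,
      zero_add] at h1
    exact h1

end Pool.Agent.Y872.MT
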